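import Pool.Agent.Lib.PolB.Fin

/-!
# A model of ZFC with the positive relation at a non weakly compact inaccessible cardinal

From an inaccessible cardinal `κ` whose measurability is indestructible under `κ`-directed closed
forcing (Laver: after a preparatory forcing every supercompact cardinal has this property) we
construct a model `(M, E)` of ZFC with an inaccessible cardinal `k` which is not weakly compact and
satisfies the strong polarized relation `(2^k, k) → (2^k, k)` for two colours.

Definitions: `Indestr` in `Lib/PolF/Frc.lean`, `IsZFC` in `Lib/BVM/ZFCDef.lean`, `IsInac`, `IsArr`,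
`IsReg`, `IsPow`, `IsPol` in `Lib/PolB/Mdl.lean`.
-/

set_option autoImplicit false
universe u

namespace Pool.Agent.Results.MP_98d601_lc.ConsistencyModel

open Pool.Agent.PolB Pool.Agent.PolF Pool.Agent.Lib.BVM

theorem result (κ : Cardinal.{u}) (hκ : κ.IsInaccessible) (h : Indestr κ) :
    ∃ (M : Type (u + 1)) (E : M → M → Prop), IsZFC E ∧ ∃ k l : M,
      IsInac E k ∧ ¬ IsArr E k ∧ IsReg E l ∧ IsPow E k l ∧ IsPol E l k :=
  model_pol κ hκ h

end Pool.Agent.Results.MP_98d601_lc.ConsistencyModel
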